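import Pool.Agent.helper5.SYM.SpecA

/-! Project sy (MP_45d809_mp), row EVB: the generating polynomial for the group of order two. -/

set_option autoImplicit false

namespace Pool.Agent.SYM
open Finset CT Polynomial

theorem EVB_even {W : Type} [DecidableEq W] (A : Finset (W × Fin 4))
    (e : W × Fin 4 → W × Fin 4) (h : Act A e) : 2 ∣ A.card := by
  have h1 : ∑ x ∈ A, (1 : ZMod 2) = 0 := by
    refine Finset.sum_involution (fun x _ => e x) ?_ ?_ ?_ ?_
    · intro x _
      exact CharTwo.add_self_eq_zero 1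
    · intro x hx _
      exact (h.2 x).2 hx
    · intro x hx
      exact (h.2 _).1 (by rw [h.1]; exact ((h.2 x).2 hx).symm)
    · intro x _
      exact h.1 x
  rw [Finset.sum_const, nsmul_eq_mul, mul_one] at h1
  exact (ZMod.natCast_eq_zero_iff _ _).1 h1

theorem EVB_ind (hSMA : SMA_stmt) (hPSI : PSI_stmt) (W : Type) [Fintype W] [DecidableEq W]
    (C : Finset (W × Fin 4)) (J K : Finset W) (hJK : Disjoint J K)
    (hC : ∀ c ∈ C, c.1 ∉ J ∧ c.1 ∉ K) :
    ∀ (L : List W) (e : W × Fin 4 → W × Fin 4) (α : W × Fin 4 → ZMod 2), L.Nodup →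
      (∀ x ∈ Ed C J K, x.1 ∉ L) → Act (dts L.toFinset ∪ Ed C J K) e → Vol e α →
      SA (Om C J K ∅ (fun _ => (1 : ZMod 2))) L e α =
        X ^ (J.card + (C.card + K.card) / 2) * SA (fun e' _ => X ^ so J e') L e α := by
  intro L
  induction L with
  | nil =>
    intro e α _ _ hact hvol
    have h1 : Act (Ed C J K) e := by
      have h2 : dts (([] : List W).toFinset) ∪ Ed C J K = Ed C J K := by
        simp [dts]
      rwa [h2] at hact
    show Om C J K ∅ (fun _ => (1 : ZMod 2)) e α = X ^ (J.card + (C.card + K.card) / 2) * X ^ so J e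
    rw [hPSI W C J K e α hJK hC h1 hvol, pow_add]
  | cons u L ih =>
    intro e α hnd hE hact hvol
    show ∑ t : Fin 3, X ^ lsv e α u t * SA (Om C J K ∅ (fun _ => (1 : ZMod 2))) L (sm e u t)
        (smv e α u t) = X ^ (J.card + (C.card + K.card) / 2) *
        ∑ t : Fin 3, X ^ lsv e α u t * SA (fun e' _ => X ^ so J e') L (sm e u t) (smv e α u t)
    rw [Finset.mul_sum]
    refine Finset.sum_congr rfl fun t _ => ?_
    have hnd' := List.nodup_cons.1 hnd
    have h3 := hSMA W (ZMod 2) L.toFinset (Ed C J K) e α u t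
      (by rw [List.mem_toFinset]; exact hnd'.1)
      (fun x hx h => hE x hx (by rw [h]; exact List.mem_cons_self))
      (by rw [List.toFinset_cons] at hact; exact hact) hvol
    rw [ih (sm e u t) (smv e α u t) hnd'.2
      (fun x hx h => hE x hx (List.mem_cons_of_mem u h)) h3.1 h3.2]
    rw [mul_left_comm]

theorem EVB (hSMA : SMA_stmt) (hPSI : PSI_stmt) : EVB_stmt := by
  intro W _ _ L C J K e α hadm
  have hEd : ∀ x ∈ Ed C J K, x.1 ∉ L := by
    intro x hx
    rcases Finset.mem_union.1 hx with h | h
    · rcases Finset.mem_union.1 h with h | h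
      · exact (hadm.dC x h).1
      · exact hadm.dJ _ (Finset.mem_product.1 h).1
    · exact hadm.dK _ (Finset.mem_product.1 h).1
  refine ⟨?_, EVB_ind hSMA hPSI W C J K hadm.dJK (fun c hc => (hadm.dC c hc).2) L e α hadm.nd hEd
    hadm.act hadm.vol⟩
  have h1 := EVB_even _ e hadm.act
  have d1 : Disjoint (dts L.toFinset) (Ed C J K) := by
    rw [Finset.disjoint_left]
    intro x hx hx'
    exact hEd x hx' (List.mem_toFinset.1 (Finset.mem_product.1 hx).1)
  have d2 : Disjoint (C ∪ jd J) (K ×ˢ ({0} : Finset (Fin 4))) := by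
    rw [Finset.disjoint_left]
    intro x hx hx'
    have hK := (Finset.mem_product.1 hx').1
    rcases Finset.mem_union.1 hx with h | h
    · exact (hadm.dC x h).2.2 hK
    · exact Finset.disjoint_left.1 hadm.dJK (Finset.mem_product.1 h).1 hK
  have d3 : Disjoint C (jd J) := by
    rw [Finset.disjoint_left]
    intro x hx hx'
    exact (hadm.dC x hx).2.1 (Finset.mem_product.1 hx').1
  have c1 : (dts L.toFinset).card = L.toFinset.card * 4 := by
    rw [dts, Finset.card_product, Finset.card_univ, Fintype.card_fin]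
  have c2 : (jd J).card = J.card * 2 := by
    rw [jd, Finset.card_product]
    rfl
  have c3 : (K ×ˢ ({0} : Finset (Fin 4))).card = K.card := by
    rw [Finset.card_product, Finset.card_singleton, mul_one]
  have c4 : (Ed C J K).card = C.card + J.card * 2 + K.card := by
    rw [Ed, Finset.card_union_of_disjoint d2, Finset.card_union_of_disjoint d3, c2, c3]
  rw [Finset.card_union_of_disjoint d1, c1, c4] at h1
  omega

end Pool.Agent.SYM
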