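import Pool.Agent.helper5.SYM.SpecB

/-! Project sy (MP_45d809_mp), row TRP: the transition systems of a 4-regular graph. -/

set_option autoImplicit false

namespace Pool.Agent.SYM
open Finset CT Polynomial

theorem TRP_pa : ∀ (t : Fin 3) (i : Fin 4), pa t (pa t i) = i ∧ pa t i ≠ i := by
  decide

theorem TRP_ex : ∀ f : Fin 4 → Fin 4, (∀ i, f (f i) = i) → (∀ i, f i ≠ i) →
    ∃ t : Fin 3, ∀ i, pa t i = f i := by
  decide +kernel

theorem TRP_inj : ∀ t t' : Fin 3, (∀ i, pa t i = pa t' i) → t = t' := by
  decide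

theorem TRP (hLBF : LBF_stmt) (hLB0 : LB0_stmt) : TRP_stmt := by
  intro V _ _ G v e L hact hadj hsur hinj hnd hL
  have hee := hact.1
  let f : V × Fin 4 → G.Dart := fun x => ⟨(x.1, (e x).1), hadj x.1 x.2⟩
  have hf : Function.Bijective f := by
    constructor
    · rintro ⟨u, i⟩ ⟨w, j⟩ h
      have h1 : u = w := congrArg (fun d : G.Dart => d.fst) h
      subst h1
      have h2 : (e (u, i)).1 = (e (u, j)).1 := congrArg (fun d : G.Dart => d.snd) h
      rw [hinj u i j h2]
    · intro d
      obtain ⟨i, hi⟩ := hsur d.fst d.snd d.adj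
      refine ⟨(d.fst, i), ?_⟩
      apply SimpleGraph.Dart.ext
      show (d.fst, (e (d.fst, i)).1) = d.toProd
      rw [hi]
  let ε : V × Fin 4 ≃ G.Dart := Equiv.ofBijective f hf
  have hε1 : ∀ x, (ε x).fst = x.1 := fun x => rfl
  have hε2 : ∀ d, (ε.symm d).1 = d.fst := by
    intro d
    rw [← hε1, Equiv.apply_symm_apply]
  have hεs : ∀ x, (ε x).symm = ε (e x) := by
    intro x
    apply SimpleGraph.Dart.ext
    show ((e x).1, x.1) = ((e x).1, (e (e x)).1)
    rw [hee]
  have htr2 : ∀ (t : V → Fin 3) x, tr t (tr t x) = x := by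
    intro t x
    show (x.1, pa (t x.1) (pa (t x.1) x.2)) = x
    rw [(TRP_pa _ _).1]
  have htrne : ∀ (t : V → Fin 3) x, tr t x ≠ x := by
    intro t x h
    exact (TRP_pa (t x.1) x.2).2 (congrArg Prod.snd h)
  haveI : Finite G.Dart := Finite.of_equiv _ ε
  have hv : v ∉ L := by
    intro h
    have h1 : v ∈ L.toFinset := List.mem_toFinset.2 h
    rw [hL] at h1
    exact (Finset.mem_erase.1 h1).1 rfl
  have hins : insert v L.toFinset = univ := by
    rw [hL]
    exact Finset.insert_erase (Finset.mem_univ v)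
  refine ⟨fun t d => ε (tr t (ε.symm d)), ?_, ?_, ?_⟩
  · intro t
    refine ⟨?_, ?_, ?_⟩
    · intro d
      show ε (tr t (ε.symm (ε (tr t (ε.symm d))))) = d
      rw [Equiv.symm_apply_apply, htr2, Equiv.apply_symm_apply]
    · intro d
      show (ε (tr t (ε.symm d))).fst = d.fst
      rw [hε1]
      exact hε2 d
    · intro d h
      apply htrne t (ε.symm d)
      rw [Equiv.eq_symm_apply]
      exact h
  · intro τ hτ
    have hτ1 : ∀ u i, (ε.symm (τ (ε (u, i)))).1 = u := by
      intro u i
      rw [hε2, hτ.2.1]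
      rfl
    have hkey : ∀ u, ∃ t : Fin 3, ∀ i, pa t i = (ε.symm (τ (ε (u, i)))).2 := by
      intro u
      apply TRP_ex (fun i => (ε.symm (τ (ε (u, i)))).2)
      · intro i
        have h1 : ((u, (ε.symm (τ (ε (u, i)))).2) : V × Fin 4) = ε.symm (τ (ε (u, i))) :=
          Prod.ext (hτ1 u i).symm rfl
        show (ε.symm (τ (ε (u, (ε.symm (τ (ε (u, i)))).2)))).2 = i
        rw [h1, Equiv.apply_symm_apply, hτ.1, Equiv.symm_apply_apply]
      · intro i h
        have h1 : ε.symm (τ (ε (u, i))) = (u, i) := Prod.ext (hτ1 u i) h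
        rw [Equiv.symm_apply_eq] at h1
        exact hτ.2.2 _ h1
    choose t ht using hkey
    refine ⟨t, ?_, ?_⟩
    · funext d
      obtain ⟨⟨u, i⟩, rfl⟩ := ε.surjective d
      show ε (tr t (ε.symm (ε (u, i)))) = τ (ε (u, i))
      rw [Equiv.symm_apply_apply, ← Equiv.eq_symm_apply]
      exact Prod.ext (hτ1 u i).symm (ht u i)
    · intro t' ht'
      funext u
      apply TRP_inj
      intro i
      rw [ht u i]
      have h1 : ε (tr t' (ε.symm (ε (u, i)))) = τ (ε (u, i)) := congrFun ht' (ε (u, i))
      rw [Equiv.symm_apply_apply] at h1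
      rw [← h1, Equiv.symm_apply_apply]
      rfl
  · intro t
    have hLB := hLB0 V v L e t hnd hv hins hact
    let E : (G.Dart → Bool) ≃ (V × Fin 4 → Bool) :=
      { toFun := fun φ x => φ (ε x)
        invFun := fun ψ d => ψ (ε.symm d)
        left_inv := fun φ => by
          funext d
          show φ (ε (ε.symm d)) = φ d
          rw [Equiv.apply_symm_apply]
        right_inv := fun ψ => by
          funext x
          show ψ (ε.symm (ε x)) = ψ x
          rw [Equiv.symm_apply_apply] }
    have hE : ∀ φ x, E φ x = φ (ε x) := fun φ x => rfl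
    have ha : ∀ φ : G.Dart → Bool, (∀ d : G.Dart, φ d.symm = φ d) ↔ ∀ x, E φ (e x) = E φ x := by
      intro φ
      constructor
      · intro h x
        rw [hE, hE, ← hεs, h]
      · intro h d
        obtain ⟨x, rfl⟩ := ε.surjective d
        rw [hεs]
        exact h x
    have hb : ∀ φ : G.Dart → Bool, (∀ d : G.Dart, φ (ε (tr t (ε.symm d))) = φ d) ↔
        ∀ x, E φ (tr t x) = E φ x := by
      intro φ
      constructor
      · intro h x
        have h1 := h (ε x)
        rw [Equiv.symm_apply_apply] at h1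
        exact h1
      · intro h d
        obtain ⟨x, rfl⟩ := ε.surjective d
        rw [Equiv.symm_apply_apply]
        exact h x
    constructor
    · have h1 := hLBF G.Dart (fun d => d.symm) (fun d => ε (tr t (ε.symm d))) (fun _ => False)
      have h2 : Nat.card {φ : G.Dart → Bool // (∀ d : G.Dart, φ d.symm = φ d) ∧
          (∀ d, φ (ε (tr t (ε.symm d))) = φ d) ∧ ∀ d : G.Dart, False → φ d = false} =
          Nat.card {φ : V × Fin 4 → Bool // (∀ d, φ (e d) = φ d) ∧ ∀ d, φ (tr t d) = φ d} := by
        refine Nat.card_congr (Equiv.subtypeEquiv E fun φ => ?_)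
        rw [ha φ, hb φ]
        constructor
        · rintro ⟨h3, h4, _⟩
          exact ⟨h3, h4⟩
        · rintro ⟨h3, h4⟩
          exact ⟨h3, h4, fun _ h => h.elim⟩
      have h3 : 2 ^ gav (fun d => ε (tr t (ε.symm d))) (fun _ => False) =
          2 ^ lps (L ++ [v]) e t := by
        rw [← hLB.2, ← h2]
        exact h1.symm
      exact Nat.pow_right_injective (le_refl 2) h3
    · have h1 := hLBF G.Dart (fun d => d.symm) (fun d => ε (tr t (ε.symm d))) (fun d => d.fst = v)
      have h2 : Nat.card {φ : G.Dart → Bool // (∀ d : G.Dart, φ d.symm = φ d) ∧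
          (∀ d, φ (ε (tr t (ε.symm d))) = φ d) ∧ ∀ d : G.Dart, d.fst = v → φ d = false} =
          Nat.card {φ : V × Fin 4 → Bool // (∀ d, φ (e d) = φ d) ∧ (∀ d, φ (tr t d) = φ d) ∧
            ∀ d : V × Fin 4, d.1 = v → φ d = false} := by
        refine Nat.card_congr (Equiv.subtypeEquiv E fun φ => ?_)
        rw [ha φ, hb φ]
        refine and_congr_right fun _ => and_congr_right fun _ => ?_
        constructor
        · intro h x hx
          exact h (ε x) hx
        · intro h d hd
          obtain ⟨x, rfl⟩ := ε.surjective d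
          exact h x hd
      have h3 : 2 ^ gav (fun d => ε (tr t (ε.symm d))) (fun d => d.fst = v) =
          2 ^ lps L e t := by
        rw [← hLB.1, ← h2]
        exact h1.symm
      exact Nat.pow_right_injective (le_refl 2) h3

end Pool.Agent.SYM
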